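import Pool.Agent.N795.BV.Stm
import Pool.Agent.V1148.Bor.K

/-!
# Borcea's `p`-variance inequality in each degree for large `p`: assembly
-/

set_option autoImplicit false

open Polynomial

namespace Pool.Agent.N795.BV

open Pool.Agent.V1148.Bor

/-- if all critical points are `0` then the zeros have the same modulus -/
theorem norm_one {m : ℕ} (hm : 1 ≤ m) {z : Fin (m + 1) → ℂ} {w : Fin m → ℂ} (h : Rel z w)
    (hw : ∀ i, w i = 0) (hs : ∑ k, ‖z k‖ ^ 2 = (m : ℝ) + 1) (k : Fin (m + 1)) : ‖z k‖ = 1 := by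
  set P : ℂ[X] := ∏ k, (X - C (z k)) with hP
  have hd : derivative P = derivative (X ^ (m + 1) : ℂ[X]) := by
    rw [hP]
    unfold Rel at h
    rw [h, derivative_X_pow]
    simp [hw]
  have hd0 : derivative (P - X ^ (m + 1)) = 0 := by rw [derivative_sub, hd, sub_self]
  obtain ⟨b, hb⟩ : ∃ b : ℂ, P - X ^ (m + 1) = C b := by
    have := natDegree_eq_zero_of_derivative_eq_zero hd0
    exact ⟨_, eq_C_of_natDegree_eq_zero this⟩
  have hev : ∀ k, z k ^ (m + 1) = -b := by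
    intro k
    have h1 : P.eval (z k) = 0 := by
      rw [hP, eval_prod]
      exact Finset.prod_eq_zero (Finset.mem_univ k) (by simp)
    have h2 := congrArg (eval (z k)) hb
    rw [eval_sub, h1, eval_pow, eval_X, eval_C] at h2
    linear_combination -h2
  have hnorm : ∀ j, ‖z j‖ = ‖z k‖ := by
    intro j
    have h1 : ‖z j‖ ^ (m + 1) = ‖z k‖ ^ (m + 1) := by
      rw [← norm_pow, ← norm_pow, hev, hev]
    exact (pow_left_inj₀ (norm_nonneg _) (norm_nonneg _) (by omega)).1 h1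
  simp only [hnorm, Finset.sum_const, Finset.card_univ, Fintype.card_fin, nsmul_eq_mul] at hs
  have hm0 : (0 : ℝ) < (m : ℝ) + 1 := by positivity
  have h2 : ‖z k‖ ^ 2 = 1 := by
    push_cast at hs
    have h3 : ((m : ℝ) + 1) * (‖z k‖ ^ 2 - 1) = 0 := by linear_combination hs
    rcases mul_eq_zero.1 h3 with h4 | h4
    · exact absurd h4 hm0.ne'
    · linarith
  have h3 := norm_nonneg (z k)
  nlinarith

/-- the core: an exponent which depends on the degree only -/
theorem core (hS : S_SUMW) (hL : S_LOC) (hC : S_CMP) (hN : S_NRM) (m : ℕ) (hm : 1 ≤ m) :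
    ∃ p₀ : ℝ, 2 ≤ p₀ ∧ ∀ F : ℂ[X], F.natDegree = m + 1 → hdist F ≤ sigma p₀ F := by
  -- `p₀` and small critical points
  obtain ⟨p₀, hp₀, H⟩ : ∃ p₀ : ℝ, 2 ≤ p₀ ∧ ∀ (z : Fin (m + 1) → ℂ) (w : Fin m → ℂ) (c : ℂ)
      (k : Fin (m + 1)), Rel z w → ∑ k, z k = 0 → ∑ k, ‖z k‖ ^ 2 = (m : ℝ) + 1 →
      (∀ i j, ‖z j - c‖ ≤ ((m : ℝ) + 1) ^ (1 / p₀) * ‖w i - z k‖) →
      (∀ i, 1 < ‖w i - z k‖) → ∀ i, w i = 0 := by
    rcases Nat.lt_or_ge m 2 with h1 | h2
    · obtain rfl : m = 1 := by omega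
      refine ⟨2, le_rfl, fun z w c k hR hz _ _ _ i => ?_⟩
      have := hS 1 z w hR
      rw [hz, mul_zero, Fin.sum_univ_one] at this
      have h3 : i = 0 := Subsingleton.elim _ _
      rw [h3]
      rcases mul_eq_zero.1 this with h4 | h4
      · norm_num at h4
      · exact h4
    · obtain ⟨ε, hε, h⟩ := hL m h2
      obtain ⟨δ, hδ, h'⟩ := hC m hm ε hε
      have hlim : Filter.Tendsto (fun p : ℝ => ((m : ℝ) + 1) ^ (1 / p)) Filter.atTop
          (nhds (((m : ℝ) + 1) ^ (0 : ℝ))) := by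
        have h0 : Filter.Tendsto (fun p : ℝ => 1 / p) Filter.atTop (nhds 0) := by
          simpa using tendsto_inv_atTop_zero
        exact (Real.continuousAt_const_rpow (by positivity)).tendsto.comp h0
      rw [Real.rpow_zero] at hlim
      have hev := (hlim.eventually_lt_const (by linarith : (1 : ℝ) < 1 + δ)).and
        (Filter.eventually_ge_atTop (2 : ℝ))
      obtain ⟨p₀, hp1, hp2⟩ := hev.exists
      refine ⟨p₀, hp2, fun z w c k hR hz hz2 hc hk => ?_⟩
      have hsmall := h' z w c k hR hz hz2 fun i j => (hc i j).trans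
        (mul_le_mul_of_nonneg_right hp1.le (norm_nonneg _))
      exact h z w hR hz hz2.le hsmall k fun i => (hk i).le
  refine ⟨p₀, hp₀, fun F hF => ?_⟩
  by_contra hcon
  push Not at hcon
  obtain ⟨z, w, c, k, hR, hz, hz2, hc, hk⟩ := hN m hm F hF p₀ hp₀ hcon
  have hw := H z w c k hR hz hz2 hc hk
  have h1 := norm_one hm hR hw hz2 k
  have h2 := hk ⟨0, by omega⟩
  rw [hw, zero_sub, norm_neg, h1] at h2
  exact lt_irrefl _ h2

/-- the theorem -/
theorem main (hS : S_SUMW) (hL : S_LOC) (hC : S_CMP) (hN : S_NRM) (n : ℕ) (hn : 2 ≤ n) :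
    ∃ p₀ : ℝ, 1 < p₀ ∧ ∀ F : ℂ[X], F.natDegree = n → ∀ p : ℝ, p₀ ≤ p →
      hdist F ≤ sigma p F ∧ (hdist F = sigma p F ↔ IsPure F) := by
  obtain ⟨m, rfl⟩ : ∃ m, n = m + 1 := ⟨n - 1, by omega⟩
  obtain ⟨q, hq, h⟩ := core hS hL hC hN m (by omega)
  refine ⟨q + 1, by linarith, fun F hF p hp => ?_⟩
  have hn' : 2 ≤ F.natDegree := by omega
  refine ⟨(h F hF).trans (sigma_mono (by omega) (by linarith) (by linarith)), ?_, ?_⟩
  · exact equality hn' (by linarith) (by linarith : q < p) (h F hF)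
  · intro hP
    exact pure_eq hn' hP (by linarith)

end Pool.Agent.N795.BV
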