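import Pool.Agent.N795.BV.Stm

/-!
# Borcea's `p`-variance inequality for all `p ≥ 1` near the extremal polynomials: statements
-/

set_option autoImplicit false

open Polynomial

namespace Pool.Agent.N795.BV

/-- the local inequality with a quadratic gain -/
def S_PHIQ : Prop := ∀ m : ℕ, 2 ≤ m → ∃ ε κ : ℝ, 0 < ε ∧ 0 < κ ∧ ∀ (u : Fin m → ℂ) (η : ℝ),
  η ≤ ε → (∀ i, ‖u i‖ ≤ η) → (∃ i, ‖u i‖ = η) → ∑ i, u i = 0 → ∀ r : ℝ, 0 < r →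
  (∀ i, 1 ≤ r * ‖1 - u i‖) →
  1 + κ * η ^ 2 ≤ r ^ (m + 1) * ‖((m : ℂ) + 1) * ∫ t in (0 : ℝ)..1, ∏ i, ((t : ℂ) - u i)‖

/-- the zeros have modulus `1 + O(η²)` -/
def S_ZER : Prop := ∀ m : ℕ, 2 ≤ m → ∃ ε K : ℝ, 0 < ε ∧ 0 < K ∧
  ∀ (z : Fin (m + 1) → ℂ) (w : Fin m → ℂ) (η : ℝ), Rel z w → ∑ k, z k = 0 → η ≤ ε →
  (∀ i, ‖w i‖ ≤ η) → ∏ k, ‖z k‖ = 1 → ∀ k, |‖z k‖ - 1| ≤ K * η ^ 2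

/-- sums of squares of zeros and of critical points -/
def S_POW : Prop := ∀ (m : ℕ) (z : Fin (m + 1) → ℂ) (w : Fin m → ℂ), 2 ≤ m → Rel z w →
  ∑ k, z k = 0 → ((m : ℂ) - 1) * ∑ k, (z k) ^ 2 = ((m : ℂ) + 1) * ∑ i, (w i) ^ 2

/-- lower bound for the mean distance -/
def S_SIG : Prop := ∀ m : ℕ, 2 ≤ m → ∀ K : ℝ, 0 < K → ∃ ε L : ℝ, 0 < ε ∧ 0 < L ∧
  ∀ (z : Fin (m + 1) → ℂ) (η : ℝ), 0 ≤ η → η ≤ ε → ∑ k, z k = 0 →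
  ‖∑ k, (z k) ^ 2‖ ≤ K * η ^ 2 → (∀ k, |‖z k‖ - 1| ≤ K * η ^ 2) → ∏ k, ‖z k‖ = 1 →
  ∀ c : ℂ, ((m : ℝ) + 1) * (1 - L * η ^ 4) ≤ ∑ k, ‖z k - c‖

/-- the local theorem for the mean distance -/
def S_LOC1 : Prop := ∀ m : ℕ, 2 ≤ m → ∃ ε : ℝ, 0 < ε ∧
  ∀ (z : Fin (m + 1) → ℂ) (w : Fin m → ℂ), Rel z w → ∑ k, z k = 0 → ∏ k, ‖z k‖ = 1 →
  (∀ i, ‖w i‖ ≤ ε) → ∀ (k : Fin (m + 1)) (c : ℂ) (s : ℝ), 0 < s →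
  ∑ j, ‖z j - c‖ ≤ ((m : ℝ) + 1) * s → (∀ i, s ≤ ‖w i - z k‖) → ∀ i, w i = 0

open Pool.Agent.V1148.Bor in
/-- normalisation -/
def S_NRM1 : Prop := ∀ m : ℕ, 1 ≤ m → ∀ F : ℂ[X], F.natDegree = m + 1 → ∀ ε : ℝ, 0 < ε →
  (∀ w ∈ (derivative F).roots, ‖w - F.roots.sum / ((m : ℂ) + 1)‖ ^ (m + 1) * ‖F.leadingCoeff‖ ≤
    ε ^ (m + 1) * ‖F.eval (F.roots.sum / ((m : ℂ) + 1))‖) →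
  sigma 1 F ≤ hdist F → ¬ IsPure F →
  ∃ (z : Fin (m + 1) → ℂ) (w : Fin m → ℂ) (c : ℂ) (k : Fin (m + 1)) (s : ℝ),
    Rel z w ∧ ∑ k, z k = 0 ∧ ∏ k, ‖z k‖ = 1 ∧ (∀ i, ‖w i‖ ≤ ε) ∧ 0 < s ∧
    ∑ j, ‖z j - c‖ ≤ ((m : ℝ) + 1) * s ∧ (∀ i, s ≤ ‖w i - z k‖) ∧ ∃ i, w i ≠ 0

end Pool.Agent.N795.BV
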