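import Pool.Agent.N795.BV.Core
import Pool.Agent.N795.BV.Stm2

/-!
# Borcea's `p`-variance inequality for all `p ≥ 1` near the extremal polynomials: assembly
-/

set_option autoImplicit false

open Polynomial

namespace Pool.Agent.N795.BV

open Pool.Agent.V1148.Bor

/-- small critical points in every degree -/
theorem loc_all (hS : S_SUMW) (hL : S_LOC1) (m : ℕ) (hm : 1 ≤ m) : ∃ ε : ℝ, 0 < ε ∧
    ∀ (z : Fin (m + 1) → ℂ) (w : Fin m → ℂ), Rel z w → ∑ k, z k = 0 → ∏ k, ‖z k‖ = 1 →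
    (∀ i, ‖w i‖ ≤ ε) → ∀ (k : Fin (m + 1)) (c : ℂ) (s : ℝ), 0 < s →
    ∑ j, ‖z j - c‖ ≤ ((m : ℝ) + 1) * s → (∀ i, s ≤ ‖w i - z k‖) → ∀ i, w i = 0 := by
  rcases Nat.lt_or_ge m 2 with h1 | h2
  · obtain rfl : m = 1 := by omega
    refine ⟨1, one_pos, fun z w hR hz _ _ _ _ _ _ _ _ i => ?_⟩
    have := hS 1 z w hR
    rw [hz, mul_zero, Fin.sum_univ_one] at this
    have h3 : i = 0 := Subsingleton.elim _ _
    rw [h3]
    rcases mul_eq_zero.1 this with h4 | h4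
    · norm_num at h4
    · exact h4
  · exact hL m h2

/-- the local theorem for polynomials -/
theorem main1 (hS : S_SUMW) (hL : S_LOC1) (hN : S_NRM1) (n : ℕ) (hn : 2 ≤ n) :
    ∃ ε : ℝ, 0 < ε ∧ ∀ F : ℂ[X], F.natDegree = n →
      (∀ w ∈ (derivative F).roots, ‖w - F.roots.sum / (n : ℂ)‖ ^ n * ‖F.leadingCoeff‖ ≤
        ε * ‖F.eval (F.roots.sum / (n : ℂ))‖) →
      ∀ p : ℝ, 1 ≤ p → hdist F ≤ sigma p F ∧ (hdist F = sigma p F ↔ IsPure F) := by
  obtain ⟨m, rfl⟩ : ∃ m, n = m + 1 := ⟨n - 1, by omega⟩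
  have hm : 1 ≤ m := by omega
  obtain ⟨ε, hε, h⟩ := loc_all hS hL m hm
  refine ⟨ε ^ (m + 1), by positivity, fun F hF hw p hp => ?_⟩
  have hn' : 2 ≤ F.natDegree := by omega
  by_cases hP : IsPure F
  · have := pure_eq hn' hP hp
    exact ⟨this.le, fun _ => hP, fun _ => this⟩
  · have hlt : hdist F < sigma 1 F := by
      by_contra hcon
      push Not at hcon
      push_cast at hw
      obtain ⟨z, w, c, k, s, hR, hz, hz1, hwε, hs, hc, hk, i, hi⟩ :=
        hN m hm F hF ε hε hw hcon hP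
      exact hi (h z w hR hz hz1 hwε k c s hs hc hk i)
    have h2 : hdist F < sigma p F := hlt.trans_le (sigma_mono (by omega) one_pos hp)
    exact ⟨h2.le, fun h3 => absurd h3 h2.ne, fun h3 => absurd h3 hP⟩

end Pool.Agent.N795.BV
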