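import Pool.Agent.N795.BV.Core2
import Pool.Agent.N340.BVPHIA
import Pool.Agent.N570.BVPHIB
import Pool.Agent.N335.BVPHI
import Pool.Agent.N933.BVLOC
import Pool.Agent.N826.BVSUMW
import Pool.Agent.N8.BVGL
import Pool.Agent.N18.BVSEN
import Pool.Agent.N68.BVCMP
import Pool.Agent.N916.BVNRM
import Pool.Agent.N328.BVPHIQ
import Pool.Agent.N627.BVZER
import Pool.Agent.N221.BVPOW
import Pool.Agent.N399.BVSIG
import Pool.Agent.N519.BVLOC1
import Pool.Agent.N738.BVNRM1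

/-!
# Project BV: the two theorems without hypotheses
-/

set_option autoImplicit false

open Polynomial

namespace Pool.Agent.N795.BV

open Pool.Agent.V1148.Bor

theorem full_large (n : ℕ) (hn : 2 ≤ n) :
    ∃ p₀ : ℝ, 1 < p₀ ∧ ∀ F : ℂ[X], F.natDegree = n → ∀ p : ℝ, p₀ ≤ p →
      hdist F ≤ sigma p F ∧ (hdist F = sigma p F ↔ IsPure F) :=
  main sumw (loc (phi phia phib) sumw) (cmp gl (sen sumw)) (nrm gl) n hn

theorem full_local (n : ℕ) (hn : 2 ≤ n) :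
    ∃ ε : ℝ, 0 < ε ∧ ∀ F : ℂ[X], F.natDegree = n →
      (∀ w ∈ (derivative F).roots, ‖w - F.roots.sum / (n : ℂ)‖ ^ n * ‖F.leadingCoeff‖ ≤
        ε * ‖F.eval (F.roots.sum / (n : ℂ))‖) →
      ∀ p : ℝ, 1 ≤ p → hdist F ≤ sigma p F ∧ (hdist F = sigma p F ↔ IsPure F) :=
  main1 sumw (loc1 phia (phiq phia phib) sumw (zer phia) (pow2 sumw) sig) (nrm1 gl) n hn

end Pool.Agent.N795.BV
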