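import Mathlib
import Pool.Agent.V1148.Bor.A

/-!
# Borcea's `p`-variance inequality in each degree for large `p`: statements of the steps (project BV)
-/

set_option autoImplicit false

open Polynomial

namespace Pool.Agent.N795.BV

/-- `w` lists the critical points (with multiplicity) of the polynomial with the zeros `z`. -/
def Rel {m : ℕ} (z : Fin (m + 1) → ℂ) (w : Fin m → ℂ) : Prop :=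
  derivative (∏ k, (X - C (z k))) = C ((m : ℂ) + 1) * ∏ i, (X - C (w i))

/-- second order expansion of `(m+1) ∫_0^1 ∏ (t - u_i) dt` if `∑ u_i = 0` -/
def S_PHIA : Prop := ∀ m : ℕ, 2 ≤ m → ∃ K : ℝ, 0 < K ∧ ∀ (u : Fin m → ℂ) (η : ℝ), η ≤ 1 →
  (∀ i, ‖u i‖ ≤ η) → ∑ i, u i = 0 →
  ‖((m : ℂ) + 1) * (∫ t in (0 : ℝ)..1, ∏ i, ((t : ℂ) - u i)) - 1 +
    ((m : ℂ) + 1) / (2 * ((m : ℂ) - 1)) * ∑ i, (u i) ^ 2‖ ≤ K * η ^ 3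

/-- `log |1 - u|` to second order -/
def S_PHIB : Prop := ∀ u : ℂ, ‖u‖ ≤ 1 / 2 →
  Real.log ‖1 - u‖ ≤ -(u.re + (u ^ 2).re / 2) + ‖u‖ ^ 3

/-- the local inequality -/
def S_PHI : Prop := ∀ m : ℕ, 2 ≤ m → ∃ ε : ℝ, 0 < ε ∧ ∀ u : Fin m → ℂ, (∀ i, ‖u i‖ ≤ ε) →
  ∑ i, u i = 0 → (∃ i, u i ≠ 0) → ∀ r : ℝ, 0 < r → (∀ i, 1 ≤ r * ‖1 - u i‖) →
  1 < r ^ (m + 1) * ‖((m : ℂ) + 1) * ∫ t in (0 : ℝ)..1, ∏ i, ((t : ℂ) - u i)‖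

/-- sums of zeros and of critical points -/
def S_SUMW : Prop := ∀ (m : ℕ) (z : Fin (m + 1) → ℂ) (w : Fin m → ℂ), Rel z w →
  ((m : ℂ) + 1) * ∑ i, w i = m * ∑ k, z k

/-- Gauss-Lucas for discs about the origin -/
def S_GL : Prop := ∀ (m : ℕ) (z : Fin (m + 1) → ℂ) (w : Fin m → ℂ) (B : ℝ), Rel z w →
  (∀ k, ‖z k‖ ≤ B) → ∀ i, ‖w i‖ ≤ B

/-- the local theorem: near `X^n - b` (small critical points) -/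
def S_LOC : Prop := ∀ m : ℕ, 2 ≤ m → ∃ ε : ℝ, 0 < ε ∧ ∀ (z : Fin (m + 1) → ℂ) (w : Fin m → ℂ),
  Rel z w → ∑ k, z k = 0 → ∑ k, ‖z k‖ ^ 2 ≤ (m : ℝ) + 1 → (∀ i, ‖w i‖ ≤ ε) →
  ∀ k, (∀ i, 1 ≤ ‖w i - z k‖) → ∀ i, w i = 0

/-- the equality case of Sendov's theorem -/
def S_SEN : Prop := ∀ m : ℕ, 1 ≤ m → ∀ (z : Fin (m + 1) → ℂ) (w : Fin m → ℂ) (c : ℂ)
  (k : Fin (m + 1)), Rel z w → ∑ k, z k = 0 → (∀ i j, ‖z j - c‖ ≤ ‖w i - z k‖) → ∀ i, w i = 0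

/-- compactness -/
def S_CMP : Prop := ∀ m : ℕ, 1 ≤ m → ∀ ε : ℝ, 0 < ε → ∃ δ : ℝ, 0 < δ ∧
  ∀ (z : Fin (m + 1) → ℂ) (w : Fin m → ℂ) (c : ℂ) (k : Fin (m + 1)), Rel z w → ∑ k, z k = 0 →
  ∑ k, ‖z k‖ ^ 2 = (m : ℝ) + 1 → (∀ i j, ‖z j - c‖ ≤ (1 + δ) * ‖w i - z k‖) → ∀ i, ‖w i‖ ≤ ε

open Pool.Agent.V1148.Bor in
/-- normalisation -/
def S_NRM : Prop := ∀ m : ℕ, 1 ≤ m → ∀ F : ℂ[X], F.natDegree = m + 1 → ∀ p : ℝ, 2 ≤ p →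
  sigma p F < hdist F → ∃ (z : Fin (m + 1) → ℂ) (w : Fin m → ℂ) (c : ℂ) (k : Fin (m + 1)),
    Rel z w ∧ ∑ k, z k = 0 ∧ ∑ k, ‖z k‖ ^ 2 = (m : ℝ) + 1 ∧
    (∀ i j, ‖z j - c‖ ≤ ((m : ℝ) + 1) ^ (1 / p) * ‖w i - z k‖) ∧ ∀ i, 1 < ‖w i - z k‖

end Pool.Agent.N795.BV
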